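import Mathlib
import Pool.Agent.H15.HX.Defs
import Pool.Agent.H52.HX.HDS

/-!
Row SRB of the board hxb (MP_c00ca1_co): few points at height one in small rank.
-/

set_option autoImplicit false

namespace Pool.Agent.H15.HX

open Finset Pool.Agent.H9.Bry

/-- multiples of the unit vectors other than the ones at `i`, `k`, `l` -/
def sbZ (F : Type*) [Field F] {r : ℕ} (i k l : Fin r) : Set (Fin r → F) :=
  {x | ∃ (c : F) (m : Fin r), m ≠ i ∧ m ≠ k ∧ m ≠ l ∧ x = c • (Pi.single m (1 : F) : Fin r → F)}

theorem sb_mem_span {F : Type*} [Field F] {r : ℕ} {i k l : Fin r} {v : Fin r → F} (hi : v i = 0)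
    (hk : v k = 0) (hl : v l = 0) : v ∈ Submodule.span F (sbZ F i k l) := by
  have h1 : v = ∑ m, v m • (Pi.single m (1 : F) : Fin r → F) := by
    ext j
    simp [Finset.sum_apply, Pi.single_apply]
  rw [h1]
  refine Submodule.sum_mem _ fun m _ => ?_
  by_cases h : m ≠ i ∧ m ≠ k ∧ m ≠ l
  · exact Submodule.subset_span ⟨v m, m, h.1, h.2.1, h.2.2, rfl⟩
  · have h2 : v m = 0 := by
      by_contra h3
      exact h ⟨fun e => h3 (e ▸ hi), fun e => h3 (e ▸ hk), fun e => h3 (e ▸ hl)⟩
    rw [h2, zero_smul]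
    exact Submodule.zero_mem _

theorem sb_span_zero {F : Type*} [Field F] {r : ℕ} {i k l : Fin r} {v : Fin r → F}
    (hv : v ∈ Submodule.span F (sbZ F i k l)) : v i = 0 ∧ v k = 0 ∧ v l = 0 := by
  induction hv using Submodule.span_induction with
  | mem x hx =>
    obtain ⟨c, m, h1, h2, h3, rfl⟩ := hx
    simp [Pi.single_apply, h1.symm, h2.symm, h3.symm]
  | zero => simp
  | add x y _ _ h1 h2 => simp [h1, h2]
  | smul c x _ h => simp [h]

/-- the step -/
theorem sb_step {F : Type*} [Field F] [Fintype F] [DecidableEq F] {r : ℕ} (X : Set (Fin r → F))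
    (hX : HexFree F X) (hc : IsCone F X) (hu : ∀ k, Pi.single k (1 : F) ∈ X) (i : Fin r)
    (D : Finset (Fin r → F)) (hD : ∀ x ∈ D, x ∈ X ∧ x i = 1) (S : Finset (Fin r)) (k : Fin r)
    (hk : k ∉ S) (hki : k ≠ i) (hiS : i ∉ S) :
    (D.image (res (F := F) (insert k S))).card ≤ (D.image (res (F := F) S)).card + (Fintype.card F - 1) := by
  classical
  obtain ⟨T, hT⟩ : ∃ T : (Fin r → F) → Finset F, ∀ w, T w = (D.filter (fun x => res S x = w)).image (fun x => x k) :=
    ⟨_, fun w => rfl⟩
  have hTm : ∀ w t, t ∈ T w ↔ ∃ x ∈ D, res S x = w ∧ x k = t := by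
    intro w t
    rw [hT]
    simp only [mem_image, mem_filter, and_assoc]
  -- counting by fibres
  have hcard : (D.image (res (F := F) (insert k S))).card ≤ ∑ w ∈ D.image (res (F := F) S), (T w).card := by
    rw [← Finset.card_sigma]
    refine Finset.card_le_card_of_injOn (fun v => (⟨res S v, v k⟩ : Σ _ : Fin r → F, F)) ?_ ?_
    · intro v hv
      obtain ⟨x, hx, rfl⟩ := mem_image.mp (Finset.mem_coe.mp hv)
      have h1 : res (F := F) S (res (insert k S) x) = res S x := by
        ext j
        simp only [res, LinearMap.coe_mk, AddHom.coe_mk]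
        by_cases hj : j ∈ S
        · simp [hj]
        · simp [hj]
      have h2 : (res (F := F) (insert k S) x) k = x k := by
        simp [res]
      refine Finset.mem_coe.mpr (Finset.mem_sigma.mpr ⟨?_, ?_⟩)
      · change res S (res (insert k S) x) ∈ _
        rw [h1]
        exact mem_image_of_mem _ hx
      · change (res (insert k S) x) k ∈ T (res S (res (insert k S) x))
        rw [h1, h2, hTm]
        exact ⟨x, hx, rfl, rfl⟩
    · intro v hv v' hv' hvv
      obtain ⟨x, -, rfl⟩ := mem_image.mp (Finset.mem_coe.mp hv)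
      obtain ⟨x', -, rfl⟩ := mem_image.mp (Finset.mem_coe.mp hv')
      have e1 : res (F := F) S (res (insert k S) x) = res S (res (insert k S) x') := (Sigma.mk.inj_iff.mp hvv).1
      have e2 : (res (F := F) (insert k S) x) k = (res (insert k S) x') k := eq_of_heq (Sigma.mk.inj_iff.mp hvv).2
      ext j
      by_cases hj : j ∈ S
      · have := congrFun e1 j
        simpa [res, hj] using this
      · by_cases hjk : j = k
        · rw [hjk]; exact e2
        · simp [res, hj, hjk]
  refine hcard.trans ?_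
  -- nonempty fibres
  have hTne : ∀ w ∈ D.image (res (F := F) S), 1 ≤ (T w).card := by
    intro w hw
    obtain ⟨x, hx, rfl⟩ := mem_image.mp hw
    exact Finset.card_pos.mpr ⟨x k, (hTm _ _).mpr ⟨x, hx, rfl, rfl⟩⟩
  have hsplit : ∑ w ∈ D.image (res (F := F) S), (T w).card =
      (D.image (res (F := F) S)).card + ∑ w ∈ D.image (res (F := F) S), ((T w).card - 1) := by
    rw [Finset.card_eq_sum_ones, ← Finset.sum_add_distrib]
    exact Finset.sum_congr rfl fun w hw => by have := hTne w hw; omega
  rw [hsplit]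
  refine Nat.add_le_add_left ?_ _
  -- only the fibres with at least two elements count
  obtain ⟨W, hW⟩ : ∃ W, W = (D.image (res (F := F) S)).filter (fun w => 2 ≤ (T w).card) := ⟨_, rfl⟩
  have hsum : ∑ w ∈ D.image (res (F := F) S), ((T w).card - 1) = ∑ w ∈ W, ((T w).card - 1) := by
    rw [hW]
    refine (Finset.sum_filter_of_ne fun w _ hw => ?_).symm
    omega
  rw [hsum]
  have hdisj : ∀ w ∈ W, ∀ w' ∈ W, w ≠ w' → Disjoint (T w) (T w') := by
    intro w hw w' hw' hne
    rw [Finset.disjoint_left]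
    intro t ht ht'
    rw [hW, mem_filter] at hw hw'
    obtain ⟨s, hs, hst⟩ := Finset.exists_mem_ne (Nat.lt_of_succ_le hw.2) t
    obtain ⟨s', hs', hst'⟩ := Finset.exists_mem_ne (Nat.lt_of_succ_le hw'.2) t
    obtain ⟨p1, d1, r1, k1⟩ := (hTm _ _).mp hs
    obtain ⟨p2, d2, r2, k2⟩ := (hTm _ _).mp ht
    obtain ⟨p3, d3, r3, k3⟩ := (hTm _ _).mp ht'
    obtain ⟨p4, d4, r4, k4⟩ := (hTm _ _).mp hs'
    obtain ⟨l, hlS, hl⟩ : ∃ l ∈ S, w l ≠ w' l := by
      by_contra hcon
      push Not at hcon
      refine hne (funext fun j => ?_)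
      by_cases hj : j ∈ S
      · exact hcon j hj
      · rw [← r2, ← r3]
        simp [res, hj]
    have hli : l ≠ i := fun e => hiS (e ▸ hlS)
    have hlk : l ≠ k := fun e => hk (e ▸ hlS)
    have vl : ∀ {p v : Fin r → F}, res S p = v → p l = v l := by
      intro p v h
      rw [← h]
      simp [res, hlS]
    refine hex_ds hX hc (Z := sbZ F i k l) (x := Pi.single k 1) (y := Pi.single l 1) (p1 := p1) (p2 := p2)
      (p3 := p3) (p4 := p4) (α := s - t) (β := w l - w' l) (γ := s' - t) ?_ (hu k) (hu l) (hD p1 d1).1 (hD p2 d2).1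
      (hD p3 d3).1 (hD p4 d4).1 (sub_ne_zero.mpr hst) (sub_ne_zero.mpr hl) (sub_ne_zero.mpr hst') ?_ ?_ ?_ ?_
    · rintro _ ⟨c, m, -, -, -, rfl⟩
      exact hc c _ (hu m)
    · refine sb_mem_span ?_ ?_ ?_
      · simp [(hD p1 d1).2, (hD p2 d2).2, Pi.single_apply, hki.symm]
      · simp [k1, k2]
      · simp [vl r1, vl r2, Pi.single_apply, hlk]
    · refine sb_mem_span ?_ ?_ ?_
      · simp [(hD p2 d2).2, (hD p3 d3).2, Pi.single_apply, hli.symm]
      · simp [k2, k3, Pi.single_apply, hlk.symm]
      · simp [vl r2, vl r3]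
    · refine sb_mem_span ?_ ?_ ?_
      · simp [(hD p4 d4).2, (hD p3 d3).2, Pi.single_apply, hki.symm]
      · simp [k4, k3]
      · simp [vl r4, vl r3, Pi.single_apply, hlk]
    · intro c₁ c₂ c₃ h
      obtain ⟨z1, z2, z3⟩ := sb_span_zero h
      have hc3 : c₃ = 0 := by
        simpa [Pi.single_apply, hki.symm, hli.symm, (hD p2 d2).2] using z1
      subst hc3
      have hc1 : c₁ = 0 := by
        simpa [Pi.single_apply, hlk.symm] using z2
      have hc2 : c₂ = 0 := by
        simpa [Pi.single_apply, hlk] using z3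
      exact ⟨hc1, hc2, rfl⟩
  rcases W.eq_empty_or_nonempty with hWe | hWne
  · rw [hWe, Finset.sum_empty]
    exact Nat.zero_le _
  · have h1 : ∑ w ∈ W, (T w).card = (W.biUnion T).card :=
      (Finset.card_biUnion fun w hw w' hw' hne => hdisj w hw w' hw' hne).symm
    have h2 : (W.biUnion T).card ≤ Fintype.card F := Finset.card_le_univ _
    have h3 : ∑ w ∈ W, (T w).card = W.card + ∑ w ∈ W, ((T w).card - 1) := by
      rw [Finset.card_eq_sum_ones, ← Finset.sum_add_distrib]
      refine Finset.sum_congr rfl fun w hw => ?_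
      rw [hW, mem_filter] at hw
      omega
    have h4 := Finset.card_pos.mpr hWne
    omega

theorem small_rank {F : Type*} [Field F] [Fintype F] {r : ℕ} (X : Set (Fin r → F))
    (hX : HexFree F X) (hc : IsCone F X) (hu : ∀ k, Pi.single k (1 : F) ∈ X) (i : Fin r) :
    {x | x ∈ X ∧ x i = 1}.ncard ≤ 1 + (r - 1) * (Fintype.card F - 1) := by
  classical
  obtain ⟨D, hD⟩ : ∃ D : Finset (Fin r → F), ∀ x, x ∈ D ↔ x ∈ X ∧ x i = 1 :=
    ⟨Finset.univ.filter (fun x => x ∈ X ∧ x i = 1), fun x => by simp⟩
  have h1 : {x | x ∈ X ∧ x i = 1} = (D : Set (Fin r → F)) := by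
    ext x
    exact (hD x).symm
  rw [h1, Set.ncard_coe_finset]
  have key : ∀ S : Finset (Fin r), i ∉ S →
      (D.image (res (F := F) S)).card ≤ 1 + S.card * (Fintype.card F - 1) := by
    intro S
    induction S using Finset.induction_on with
    | empty =>
      intro _
      have h2 : D.image (res (F := F) ∅) ⊆ {0} := by
        intro v hv
        obtain ⟨x, -, rfl⟩ := mem_image.mp hv
        rw [mem_singleton]
        ext j
        simp [res]
      exact (card_le_card h2).trans (by simp)
    | insert k S hk ih =>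
      intro hi
      rw [mem_insert, not_or] at hi
      have h2 := sb_step X hX hc hu i D (fun x hx => (hD x).mp hx) S k hk (fun e => hi.1 e.symm) hi.2
      have h3 := ih hi.2
      rw [card_insert_of_notMem hk, add_mul, one_mul]
      omega
  have h2 : (D.image (res (F := F) (univ.erase i))).card = D.card := by
    refine card_image_of_injOn fun x hx y hy hxy => ?_
    have hx' := (hD x).mp (mem_coe.mp hx)
    have hy' := (hD y).mp (mem_coe.mp hy)
    ext j
    by_cases hj : j = i
    · rw [hj, hx'.2, hy'.2]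
    · have := congrFun hxy j
      simpa [res, hj] using this
  have h3 := key (univ.erase i) (notMem_erase i univ)
  rw [h2, card_erase_of_mem (mem_univ i), card_univ, Fintype.card_fin] at h3
  exact h3

end Pool.Agent.H15.HX
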